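import Mathlib
import Pool.Agent.Y922.DZ.Fam

/-!
# Dilated Hoffman elements

For a word `w = (w_1, ..., w_r)` of positive integers and a real number `x` let
`ζ(w x) = ζ(w_1 x, ..., w_r x)` be the sum of `k_1 ^ (-w_1 x) ⋯ k_r ^ (-w_r x)` over all integers
`k_1 > ... > k_r ≥ 1`. For `x = 1` and `w_i ∈ {2, 3}` these are the Hoffman elements.

It is shown that for rational `x` the numbers `π ^ (e x) ζ(w x)`, `(w, e)` in a finite set, satisfy no
linear relation with bounded coefficients from the group generated by arbitrary complex constants,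
outside few exceptional `x`; and the same for products of such numbers at several rational points.
-/

set_option autoImplicit false

namespace Pool.Agent.Results.MP_c2d7b4_nt.DilatedHoffmanElements

/-- the sum of `∏ k_i ^ (-w_i x)` over the integers `m > k_1 > ... > k_r ≥ 1` -/
noncomputable def trunc : List ℕ → ℕ → ℝ → ℝ
  | [], _, _ => 1
  | s :: l, m, x => ∑ j ∈ Finset.Ico 1 m, (j : ℝ) ^ (-((s : ℝ) * x)) * trunc l j x

/-- the dilated multiple zeta value `ζ(w_1 x, ..., w_r x)`, the sum of `∏ k_i ^ (-w_i x)` over the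
integers `k_1 > ... > k_r ≥ 1`; `ζ([] x) = 1` -/
noncomputable def zeta : List ℕ → ℝ → ℝ
  | [], _ => 1
  | s :: l, x => ∑' k : ℕ, ((k + 1 : ℕ) : ℝ) ^ (-((s : ℝ) * x)) * trunc l (k + 1) x

/-- The letters are positive and `a (w_1 + ... + w_j) > j` for `1 ≤ j ≤ r`: the condition for the
convergence of `ζ(w x)` for all `x ≥ a`. It holds for all words in the letters `2, 3` if `a > 1 / 2`,
and for all admissible words (`w_1 ≥ 2`) if `a ≥ 1`. -/
def Convergent (a : ℝ) (w : List ℕ) : Prop :=
  (∀ s ∈ w, 1 ≤ s) ∧ ∀ j : ℕ, 1 ≤ j → j ≤ w.length → (j : ℝ) < a * ((w.take j).sum : ℕ)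

/-- the number `π ^ (e x) ζ(w x)` for `y = (w, e)` -/
noncomputable def value (y : List ℕ × ℕ) (x : ℝ) : ℝ := Real.pi ^ ((y.2 : ℝ) * x) * zeta y.1 x

/-- The numbers `g e` satisfy a relation `∑ C_e g_e = 0`, not all `C_e` zero, where the `C_e` are
combinations of the constants `ξ_1, ..., ξ_h` with integer coefficients of absolute value at most
`N`. -/
def Relation {h : ℕ} {Y : Type} [Fintype Y] (ξ : Fin h → ℂ) (g : Y → ℂ) (N : ℝ) : Prop :=
  ∃ c : Y → Fin h → ℤ, (∀ e s, |(c e s : ℝ)| ≤ N) ∧ (∃ e₀, ∑ s, ξ s * (c e₀ s : ℂ) ≠ 0) ∧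
    ∑ e, (∑ s, ξ s * (c e s : ℂ)) * g e = 0

/-- the exceptional tuples: the `n`-tuples of rational numbers `x_j ∈ [a, b]` with denominators at
most `T` such that the products `∏_j value (e_j) (x_j)`, `e_j ∈ W`, satisfy a relation with
coefficients at most `T ^ A` -/
def Exceptional (n : ℕ) (a b : ℝ) (W : Finset (List ℕ × ℕ)) {h : ℕ} (A T : ℝ) (ξ : Fin h → ℂ) :
    Set (Fin n → ℚ) :=
  {x | (∀ j, (x j : ℝ) ∈ Set.Icc a b ∧ ((x j).den : ℝ) ≤ T) ∧
    Relation ξ (fun e : Fin n → W => ((∏ j, value (e j).1 (x j) : ℝ) : ℂ)) (T ^ A)}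

open Pool.Agent.Y922.DZ

theorem ex_lt (a : ℝ) (l : List ℕ) : ∀ y : ℝ, 0 < y →
    (∀ j : ℕ, 1 ≤ j → j ≤ l.length → (j : ℝ) - a * ((l.take j).sum : ℕ) < y) → ex a l < y := by
  induction l with
  | nil => intro y hy _; exact hy
  | cons s l ih =>
    intro y hy h
    have h1 := h 1 le_rfl (by simp)
    simp only [List.take_succ_cons, List.take_zero, List.sum_cons, List.sum_nil, add_zero, Nat.cast_one] at h1
    have h2 : ex a l < y + s * a - 1 := by
      refine ih _ (by linarith) fun j hj hjl => ?_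
      have h3 := h (j + 1) (by omega) (by rw [List.length_cons]; omega)
      rw [List.take_succ_cons, List.sum_cons, Nat.cast_add, Nat.cast_add, Nat.cast_one] at h3
      linarith
    rw [ex]
    exact max_lt hy (by linarith)

theorem Cv_of {a : ℝ} {w : List ℕ} (h : Convergent a w) : Cv a w := by
  rcases w with _ | ⟨s, l⟩
  · trivial
  · have h1 := h.2 1 le_rfl (by simp)
    simp only [List.take_succ_cons, List.take_zero, List.sum_cons, List.sum_nil, add_zero, Nat.cast_one] at h1
    have h2 : ex a l < s * a - 1 := by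
      refine ex_lt a l _ (by linarith) fun j hj hjl => ?_
      have h3 := h.2 (j + 1) (by omega) (by rw [List.length_cons]; omega)
      rw [List.take_succ_cons, List.sum_cons, Nat.cast_add, Nat.cast_add, Nat.cast_one] at h3
      linarith
    show 1 + ex a l < s * a
    linarith

theorem trunc_eq (l : List ℕ) : ∀ (m : ℕ) (x : ℝ), trunc l m x = hr l m x := by
  induction l with
  | nil => intro m x; rw [trunc, hr]
  | cons s l ih =>
    intro m x
    rw [trunc, hr]
    exact Finset.sum_congr rfl fun j _ => by rw [ih]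

theorem zeta_eq (l : List ℕ) (x : ℝ) : zeta l x = z l x := by
  cases l with
  | nil => rw [zeta, z]
  | cons s l =>
    rw [zeta, z]
    exact tsum_congr fun k => by rw [trunc_eq]

/-- **Dilated Hoffman elements.** Let `n ≥ 1`, `0 < a < b`, let `W` be a finite set of pairs `(w, e)`
of words `w`, convergent on `[a, b]`, and exponents `e`, and let `h`, `A` and `ε > 0` be given. There
is `C` such that for all `T ≥ 1` and all complex constants `ξ_1, ..., ξ_h` at most
`C T ^ (2 (n - 1) + ε)` of the `n`-tuples `x` of rational numbers in `[a, b]` with denominators at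
most `T` are exceptional: for all others there is no relation with coefficients at most `T ^ A`
between the products `∏_j π ^ (e_j x_j) ζ(w_j x_j)`, `(w_j, e_j) ∈ W`. -/
theorem result (n : ℕ) (hn : 1 ≤ n) (a b : ℝ) (ha : 0 < a) (hab : a < b) (W : Finset (List ℕ × ℕ))
    (hW : ∀ y ∈ W, Convergent a y.1) (h : ℕ) (A ε : ℝ) (hε : 0 < ε) :
    ∃ C : ℝ, ∀ T : ℝ, 1 ≤ T → ∀ ξ : Fin h → ℂ, (Exceptional n a b W A T ξ).Finite ∧
      ((Exceptional n a b W A T ξ).ncard : ℝ) ≤ C * T ^ (2 * ((n : ℝ) - 1) + ε) := by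
  classical
  have hι : Function.Injective fun y : W => ((⟨y.1.1, (hW y.1 y.2).1, Cv_of (hW y.1 y.2)⟩, y.1.2) : La a) := by
    intro x y hxy
    have h1 := congrArg (fun v : La a => v.1.1) hxy
    have h2 := congrArg (fun v : La a => v.2) hxy
    exact Subtype.ext (Prod.ext h1 h2)
  obtain ⟨C, hC⟩ := Pool.Agent.Y294.LR.famCount (h := Fin h) hn (fun _ => a) (fun _ => b) (fun _ => hab)
    (fun _ => fun l : La a => HH l) (fun _ => algFam ha hab) _ hι A ε hε
  refine ⟨C, fun T hT ξ => ?_⟩
  have heq : Exceptional n a b W A T ξ = Pool.Agent.Y294.LR.ExcL (fun _ : Fin n => a) (fun _ => b)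
      (fun _ => fun l : La a => HH l) (fun y : W => ((⟨y.1.1, (hW y.1 y.2).1, Cv_of (hW y.1 y.2)⟩, y.1.2) : La a))
      A T ξ := by
    ext x
    have h1 : (fun e : Fin n → W => ((∏ j, value (e j).1 (x j) : ℝ) : ℂ)) = fun e : Fin n → W =>
        ((∏ j, HH ((⟨(e j).1.1, (hW (e j).1 (e j).2).1, Cv_of (hW (e j).1 (e j).2)⟩, (e j).1.2) : La a) (x j) : ℝ) : ℂ) := by
      funext e
      congr 1
      refine Finset.prod_congr rfl fun j _ => ?_
      rw [value, HH, zeta_eq]
    show _ ∧ Relation ξ (fun e : Fin n → W => ((∏ j, value (e j).1 (x j) : ℝ) : ℂ)) (T ^ A) ↔ _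
    rw [h1]
    exact Iff.rfl
  rw [heq]
  exact hC T hT ξ

end Pool.Agent.Results.MP_c2d7b4_nt.DilatedHoffmanElements
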